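import Pool.Agent.Helper2_CN3.Stmts

/-!
Squad CN3, block 2, module Q_ONE: `c = 1`, by counting vectors independent modulo p
-/

noncomputable section

namespace Pool.Agent.CN3.H65

open Pool.Agent.H25Cong Pool.Agent.CON Pool.Agent.CN2 Pool.Agent.CN3

variable {n : ℕ}

/-- a family of vectors of a lattice which is independent modulo p has at most n + 1 elements -/
theorem card_le {ι : Type} [Fintype ι] {L : Submodule ℤ (V n)} (hL : IsLat L) {p : ℕ}
    (hp : p.Prime) (v : ι → V n) (hv : ∀ i, v i ∈ L)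
    (hind : ∀ z : ι → ℤ, (∃ x ∈ L, ∑ i, (z i : ℝ) • v i = (p : ℝ) • x) → ∀ i, (p : ℤ) ∣ z i) :
    Fintype.card ι ≤ n + 1 := by
  obtain ⟨b, rfl⟩ := hL
  have : Fact p.Prime := ⟨hp⟩
  have hA : ∀ i j, ∃ a : ℤ, (a : ℝ) = b.repr (v i) j := by
    intro i j
    exact (b.mem_span_iff_repr_mem ℤ (v i)).1 (hv i) j
  choose A hA using hA
  have hli : LinearIndependent (ZMod p) (fun i : ι => fun j : Fin (n + 1) =>
      ((A i j : ℤ) : ZMod p)) := by
    rw [Fintype.linearIndependent_iff]
    intro g hg i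
    let z : ι → ℤ := fun i => ((g i).val : ℤ)
    have hz : ∀ i, ((z i : ℤ) : ZMod p) = g i := by
      intro i
      change (((g i).val : ℤ) : ZMod p) = g i
      rw [Int.cast_natCast, ZMod.natCast_val, ZMod.cast_id']
      rfl
    have hdiv : ∀ j, (p : ℤ) ∣ ∑ i, z i * A i j := by
      intro j
      rw [← ZMod.intCast_zmod_eq_zero_iff_dvd]
      push_cast
      have h1 := congrFun hg j
      rw [Finset.sum_apply] at h1
      rw [← h1.trans (Pi.zero_apply _)]
      refine Finset.sum_congr rfl fun i _ => ?_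
      rw [hz, Pi.smul_apply, smul_eq_mul]
    choose m hm using hdiv
    have h2 : (p : ℤ) ∣ z i := by
      refine hind z ⟨∑ j, (m j : ℝ) • b j, ?_, ?_⟩ i
      · refine Submodule.sum_mem _ fun j _ => ?_
        rw [Int.cast_smul_eq_zsmul]
        exact Submodule.smul_mem _ _ (Submodule.subset_span ⟨j, rfl⟩)
      · apply b.repr.injective
        ext j
        have e1 : b.repr (∑ i, (z i : ℝ) • v i) j = ∑ i, (z i : ℝ) * (A i j : ℝ) := by
          rw [map_sum, Finsupp.finsetSum_apply]
          refine Finset.sum_congr rfl fun i _ => ?_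
          rw [map_smul, Finsupp.smul_apply, smul_eq_mul, hA]
        have e2 : b.repr ((p : ℝ) • ∑ j, (m j : ℝ) • b j) j = (p : ℝ) * (m j : ℝ) := by
          rw [map_smul, Finsupp.smul_apply, smul_eq_mul, b.repr_sum_self]
        rw [e1, e2]
        exact_mod_cast hm j
    rw [← hz i, ZMod.intCast_zmod_eq_zero_iff_dvd]
    exact h2
  have h3 := hli.fintype_card_le_finrank
  rw [Module.finrank_fintype_fun_eq_card, Fintype.card_fin] at h3
  exact h3

/-- **Q_ONE** -/
theorem q_one : Q_ONE := by
  intro n L L' c h k k' hL hL' hc hch hcL hB hI hI' hlt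
  have hh0 : h ≠ 0 := by
    rintro rfl
    rw [Nat.cast_zero] at hch
    exact hc.ne' (pow_eq_zero_iff two_ne_zero |>.1 hch)
  by_cases hh1 : h = 1
  · rw [hh1, Nat.cast_one] at hch
    nlinarith [sq_nonneg (c - 1), sq_nonneg (c + 1)]
  exfalso
  obtain ⟨p, hp, hph⟩ := Nat.exists_prime_and_dvd hh1
  obtain ⟨u, hu, hui⟩ := hI p hp
  obtain ⟨v, hv, hvi⟩ := hI' p hp
  obtain ⟨q, hq⟩ := hph
  have hp0 : (p : ℝ) ≠ 0 := by exact_mod_cast hp.ne_zero
  have key := card_le hL'.lat hp (Sum.elim v (fun j => c • u j)) (by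
    rintro (i | j)
    · exact hv i
    · exact hcL _ (hu j)) (by
    intro z hz
    obtain ⟨x, hx, hxz⟩ := hz
    rw [Fintype.sum_sum_type] at hxz
    simp only [Sum.elim_inl, Sum.elim_inr] at hxz
    have h1 : ∀ i, (p : ℤ) ∣ z (Sum.inl i) := by
      refine hvi (fun i => z (Sum.inl i)) ?_
      intro y hy
      obtain ⟨a, ha⟩ := hL'.int x hx y hy
      have hw : ∀ j, ∃ l : ℤ, B (c • u j) y = p * l := by
        intro j
        obtain ⟨l, hl⟩ := hB y hy (u j) (hu j)
        refine ⟨q * l, ?_⟩
        rw [B_smul_left, B_comm, hl, ← mul_assoc, ← sq, hch, hq]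
        push_cast
        ring
      choose l hl using hw
      refine ⟨a - ∑ j, z (Sum.inr j) * l j, ?_⟩
      have e := congrArg (fun t => B t y) hxz
      simp only [B_add_left, B_smul_left, B_sum_left, ha] at e
      have e2 : ∑ j, (z (Sum.inr j) : ℝ) * (c * B (u j) y) =
          p * ∑ j, (z (Sum.inr j) : ℝ) * (l j : ℝ) := by
        rw [Finset.mul_sum]
        refine Finset.sum_congr rfl fun j _ => ?_
        rw [← B_smul_left, hl]
        ring
      rw [e2] at e
      rw [B_sum_left]
      simp only [B_smul_left]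
      push_cast
      linarith
    choose z' hz' using h1
    have h2 : ∀ j, (p : ℤ) ∣ z (Sum.inr j) := by
      refine hui (fun j => z (Sum.inr j)) ?_
      intro y hy
      have hx' : x - ∑ i, (z' i : ℝ) • v i ∈ L' := by
        refine L'.sub_mem hx (Submodule.sum_mem _ fun i _ => ?_)
        rw [Int.cast_smul_eq_zsmul]
        exact L'.smul_mem _ (hv i)
      obtain ⟨a, ha⟩ := hB _ hx' y hy
      refine ⟨a, ?_⟩
      have e1 : c • ∑ j, (z (Sum.inr j) : ℝ) • u j =
          (p : ℝ) • (x - ∑ i, (z' i : ℝ) • v i) := by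
        have e3 : ∑ i, (z (Sum.inl i) : ℝ) • v i = (p : ℝ) • ∑ i, (z' i : ℝ) • v i := by
          rw [Finset.smul_sum]
          refine Finset.sum_congr rfl fun i _ => ?_
          rw [hz' i, smul_smul]
          push_cast
          rfl
        have e4 : c • ∑ j, (z (Sum.inr j) : ℝ) • u j =
            ∑ j, (z (Sum.inr j) : ℝ) • c • u j := by
          rw [Finset.smul_sum]
          refine Finset.sum_congr rfl fun j _ => ?_
          rw [smul_comm]
        rw [e4, smul_sub, ← e3, ← hxz, add_sub_cancel_left]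
      have e2 := congrArg (fun t => B t y) e1
      simp only [B_smul_left] at e2
      rw [ha] at e2
      have e5 : c * B (∑ j, (z (Sum.inr j) : ℝ) • u j) y = c * ((p : ℝ) * a) := by
        rw [e2]
        ring
      exact mul_left_cancel₀ hc.ne' e5
    rintro (i | j)
    · exact ⟨z' i, hz' i⟩
    · exact h2 j)
  rw [Fintype.card_sum, Fintype.card_fin, Fintype.card_fin] at key
  omega

end Pool.Agent.CN3.H65

end
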